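import Pool.Agent.KS6_23.AC.Main

/-!
MP_51e3e3_an: the achievement set of the series with the terms
`(-1)^n (1/n^{α_1}, …, 1/n^{α_d})` is the whole space exactly when the exponents are distinct and at
most `1`. The case `d = 2`, `α = (1, 1/2)` is Q1.
-/

set_option autoImplicit false

open Filter Topology Set

namespace Pool.Agent.Results.MP_51e3e3_an.AllExponents

/-- the achievement set of `(v_n)_{n ≥ 1}`: the sums of the convergent subseries, in the original
order -/
def achievementSet {d : ℕ} (v : ℕ → Fin d → ℝ) : Set (Fin d → ℝ) :=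
  {p | ∃ ε : ℕ → ℝ, (∀ n, ε n = 0 ∨ ε n = 1) ∧
    Tendsto (fun N : ℕ => ∑ n ∈ Finset.Icc 1 N, ε n • v n) atTop (𝓝 p)}

open Pool.Agent.KS6_23.AC

/-- necessity of distinctness -/
lemma inj_of_univ {d : ℕ} {α : Fin d → ℝ} (h : achievementSet (vv α) = univ) :
    Function.Injective α := by
  intro i j hij
  by_contra hne
  have h1 : (Function.update (0 : Fin d → ℝ) i 1) ∈ achievementSet (vv α) := by
    rw [h]; exact mem_univ _
  obtain ⟨ε, -, hε⟩ := h1
  have h2 := (tendsto_pi_nhds.1 hε) i
  have h3 := (tendsto_pi_nhds.1 hε) j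
  have h4 : ∀ N : ℕ, (∑ n ∈ Finset.Icc 1 N, ε n • vv α n) i
      = (∑ n ∈ Finset.Icc 1 N, ε n • vv α n) j := by
    intro N
    rw [Finset.sum_apply, Finset.sum_apply]
    apply Finset.sum_congr rfl
    intro n _
    simp only [Pi.smul_apply, vv]
    rw [hij]
  have h5 := tendsto_nhds_unique h2 (h3.congr fun N => (h4 N).symm)
  simp [Function.update_of_ne (Ne.symm hne)] at h5

/-- necessity of `α_i ≤ 1` -/
lemma le_one_of_univ {d : ℕ} {α : Fin d → ℝ} (h : achievementSet (vv α) = univ) (i : Fin d) :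
    α i ≤ 1 := by
  by_contra hc
  push Not at hc
  have hs : Summable (fun n : ℕ => 1 / (n : ℝ) ^ α i) := Real.summable_one_div_nat_rpow.2 hc
  set B : ℝ := ∑' n : ℕ, 1 / (n : ℝ) ^ α i with hB
  have h1 : (Function.update (0 : Fin d → ℝ) i (B + 1)) ∈ achievementSet (vv α) := by
    rw [h]; exact mem_univ _
  obtain ⟨ε, hε01, hε⟩ := h1
  have h2 := (tendsto_pi_nhds.1 hε) i
  have h3 : ∀ N : ℕ, (∑ n ∈ Finset.Icc 1 N, ε n • vv α n) i ≤ B := by
    intro N
    rw [Finset.sum_apply]
    calc ∑ n ∈ Finset.Icc 1 N, (ε n • vv α n) i ≤ ∑ n ∈ Finset.Icc 1 N, 1 / (n : ℝ) ^ α i := by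
          apply Finset.sum_le_sum
          intro n _
          have h5 : 0 ≤ (n : ℝ) ^ α i := Real.rpow_nonneg (by positivity) _
          simp only [Pi.smul_apply, smul_eq_mul, vv]
          rcases hε01 n with h6 | h6
          · rw [h6, zero_mul]; positivity
          · rw [h6, one_mul]
            apply div_le_div_of_nonneg_right _ h5
            rcases Nat.even_or_odd n with h7 | h7
            · rw [h7.neg_one_pow]
            · rw [h7.neg_one_pow]; norm_num
      _ ≤ B := hs.sum_le_tsum _ (fun n _ => by positivity)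
  have h4 : (Function.update (0 : Fin d → ℝ) i (B + 1)) i ≤ B :=
    le_of_tendsto' h2 h3
  rw [Function.update_self] at h4
  linarith

lemma univ_of {d : ℕ} {α : Fin d → ℝ} (hα : ∀ i, 0 < α i) (hinj : Function.Injective α)
    (h1 : ∀ i, α i ≤ 1) : achievementSet (vv α) = univ := by
  rw [eq_univ_iff_forall]
  intro p
  rcases Nat.eq_zero_or_pos d with hd | hd
  · subst hd
    refine ⟨fun _ => 0, fun _ => Or.inl rfl, ?_⟩
    have : ∀ q : Fin 0 → ℝ, q = p := fun q => Subsingleton.elim _ _
    rw [show (fun N : ℕ => ∑ n ∈ Finset.Icc 1 N, (fun _ : ℕ => (0 : ℝ)) n • vv α n)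
      = fun _ => p from funext fun N => this _]
    exact tendsto_const_nhds
  · exact reach hd hinj hα h1 p

/-- **The achievement set of `∑ (-1)^n (n^{-α_1}, …, n^{-α_d})` is the whole space if and only if
the exponents are distinct and at most one; in particular the answer to Q1 is yes.** -/
theorem result :
    (∀ (d : ℕ) (α : Fin d → ℝ), (∀ i, 0 < α i) →
      (achievementSet (fun (n : ℕ) (i : Fin d) => (-1) ^ n / (n : ℝ) ^ α i) = univ ↔
        Function.Injective α ∧ ∀ i, α i ≤ 1)) ∧
    achievementSet (fun n : ℕ => ![(-1) ^ n / (n : ℝ), (-1) ^ n / Real.sqrt n]) = univ := by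
  have hA : ∀ (d : ℕ) (α : Fin d → ℝ), (∀ i, 0 < α i) →
      (achievementSet (fun (n : ℕ) (i : Fin d) => (-1) ^ n / (n : ℝ) ^ α i) = univ ↔
        Function.Injective α ∧ ∀ i, α i ≤ 1) := by
    intro d α hα
    constructor
    · intro h
      exact ⟨inj_of_univ h, le_one_of_univ h⟩
    · rintro ⟨h1, h2⟩
      exact univ_of hα h1 h2
  refine ⟨hA, ?_⟩
  have h := (hA 2 ![1, 1 / 2] (by intro i; fin_cases i <;> norm_num)).2 ⟨by
    intro i j hij
    fin_cases i <;> fin_cases j <;> simp at hij ⊢, by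
    intro i; fin_cases i <;> norm_num⟩
  rw [← h]
  congr 1
  funext n i
  fin_cases i
  · simp
  · simp [Real.sqrt_eq_rpow]

end Pool.Agent.Results.MP_51e3e3_an.AllExponents
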